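import Pool.Agent.W477.GM.Stms

set_option maxHeartbeats 1000000

/-!
GM-PO: the forcing of finite sequences and its generic filter.
-/

namespace Pool.Agent.W477.GM.H391Po

open Pool.Agent.W477.GM

theorem upd_hs {v : ℕ → Nm QQ} (hv : ∀ i, HS SQ (v i)) (k : ℕ) {x : Nm QQ} (hx : HS SQ x) :
    ∀ i, HS SQ (Function.update v k x i) := by
  intro i
  by_cases h : i = k
  · subst h
    rw [Function.update_self]
    exact hx
  · rw [Function.update_of_ne h]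
    exact hv i

theorem po_holds (h : P_EQ) (h2 : P_FC) (h3 : P_PR) (h4 : P_HS) (hl : P_LIFT) (hco : P_COD)
    (hfi : P_FIN) (hc : P_CAX) (hk : P_KAP) (hs : P_SYSC) : P_PO := by
  have hS : SysAx SQ := hs hk Str slen hc.2
  obtain ⟨hcod, hgN, hg, hlb, hlr⟩ := hco
  have E := h QQ
  have F := h2 QQ (HS SQ)
  have R := h3 QQ
  have H := h4 QQ SQ hS
  have C := hcod QQ
  intro v hv hv0 hv1 hv2 p
  -- membership in the three names
  have hB : ∀ (x : Nm QQ) (q : QQ), fmem x (v 0) q ↔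
      ∀ q', q' ≤ q → ∃ r, r ≤ q' ∧ ∃ c, feq x (chk (cd c)) r := by
    intro x q
    rw [hv0, ← C.mem_b]
    constructor
    · exact E.mcongr _ _ _ _ _ (E.refl _ _) (hlb q)
    · exact E.mcongr _ _ _ _ _ (E.refl _ _) (E.symm _ _ _ (hlb q))
  have hR : ∀ (x y : Nm QQ) (q : QQ), fmem (opN x y) (v 1) q ↔
      ∀ q', q' ≤ q → ∃ r, r ≤ q' ∧ ∃ c d, c ≤ d ∧ feq x (chk (cd c)) r ∧
        feq y (chk (cd d)) r := by
    intro x y q
    rw [hv1, ← C.mem_r]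
    constructor
    · exact E.mcongr _ _ _ _ _ (E.refl _ _) (hlr q)
    · exact E.mcongr _ _ _ _ _ (E.refl _ _) (E.symm _ _ _ (hlr q))
  have hG : ∀ (x : Nm QQ) (q : QQ), fmem x (v 2) q ↔
      ∀ q', q' ≤ q → ∃ r, r ≤ q' ∧ ∃ c, r.c ≤ c ∧ feq x (chk (cd c)) r := by
    intro x q
    rw [hv2]
    exact hg x q
  have hI : ∀ (x : Nm QQ) (c d : Str) (q : QQ), feq x (chk (cd c)) q → feq x (chk (cd d)) q →
      c = d := by
    intro x c d q h1 h2
    exact C.inj c d ((R.chk_eq _ _ q).1 (E.trans _ _ _ _ (E.symm _ _ _ h1) h2))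
  have hin : ∀ (x y f : ℕ), x < 10 → y < 10 → f < 10 → ∀ w : ℕ → Nm QQ, (∀ i, HS SQ (w i)) →
      ∀ q : QQ, (Fc (HS SQ) (fIn x y f) w q ↔ fmem (opN (w x) (w y)) (w f) q) :=
    fun x y f h1 h2 h3 w hw q => hfi QQ SQ hS x y f h1 h2 h3 w hw q
  -- the parts
  have A1 : Fc (HS SQ) (.all 4 (.imp (.mem 4 0) (fIn 4 4 1))) v p := by
    intro x hx q hq hm
    have hw := upd_hs hv 4 hx
    rw [hin 4 4 1 (by norm_num) (by norm_num) (by norm_num) _ hw]
    change fmem x (v 0) q at hm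
    change fmem (opN x x) (v 1) q
    rw [hB] at hm
    rw [hR]
    intro q' hq'
    obtain ⟨r, hr, c, hc⟩ := hm q' hq'
    exact ⟨r, hr, c, c, le_rfl, hc, hc⟩
  have A2 : Fc (HS SQ) (.all 4 (.all 5 (.all 6 (.imp (.mem 4 0) (.imp (.mem 5 0) (.imp (.mem 6 0)
      (.imp (fIn 4 5 1) (.imp (fIn 5 6 1) (fIn 4 6 1))))))))) v p := by
    intro x hx y hy z hz q1 _ _ q2 _ _ q3 _ _ q4 _ hm1 q5 h5 hm2
    have hw := upd_hs (upd_hs (upd_hs hv 4 hx) 5 hy) 6 hz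
    rw [hin 4 6 1 (by norm_num) (by norm_num) (by norm_num) _ hw]
    rw [hin 4 5 1 (by norm_num) (by norm_num) (by norm_num) _ hw] at hm1
    rw [hin 5 6 1 (by norm_num) (by norm_num) (by norm_num) _ hw] at hm2
    change fmem (opN x y) (v 1) q4 at hm1
    change fmem (opN y z) (v 1) q5 at hm2
    change fmem (opN x z) (v 1) q5
    rw [hR] at hm1 hm2 ⊢
    intro q hq
    obtain ⟨r1, hr1, c, d, hcd, hxc, hyd⟩ := hm1 q (hq.trans h5)
    obtain ⟨r2, hr2, c', d', hcd', hyc', hzd'⟩ := hm2 r1 (hr1.trans hq)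
    have : d = c' := hI y d c' r2 (E.mono _ _ _ _ hr2 hyd) hyc'
    subst this
    exact ⟨r2, hr2.trans hr1, c, d', hcd.trans hcd', E.mono _ _ _ _ hr2 hxc, hzd'⟩
  have A3 : Fc (HS SQ) (.all 4 (.all 5 (.imp (.mem 4 0) (.imp (.mem 5 0) (.imp (fIn 4 5 1)
      (.imp (fIn 5 4 1) (.eq 4 5))))))) v p := by
    intro x hx y hy q1 _ _ q2 _ _ q3 _ hm1 q4 h4' hm2
    have hw := upd_hs (upd_hs hv 4 hx) 5 hy
    rw [hin 4 5 1 (by norm_num) (by norm_num) (by norm_num) _ hw] at hm1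
    rw [hin 5 4 1 (by norm_num) (by norm_num) (by norm_num) _ hw] at hm2
    change fmem (opN x y) (v 1) q3 at hm1
    change fmem (opN y x) (v 1) q4 at hm2
    change feq x y q4
    rw [hR] at hm1 hm2
    apply E.dense
    intro q hq
    obtain ⟨r1, hr1, c, d, hcd, hxc, hyd⟩ := hm1 q (hq.trans h4')
    obtain ⟨r2, hr2, c', d', hcd', hyc', hxd'⟩ := hm2 r1 (hr1.trans hq)
    have e1 : d = c' := hI y d c' r2 (E.mono _ _ _ _ hr2 hyd) hyc'
    have e2 : c = d' := hI x c d' r2 (E.mono _ _ _ _ hr2 hxc) hxd'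
    subst e1
    subst e2
    have e3 : c = d := le_antisymm hcd hcd'
    subst e3
    exact ⟨r2, hr2.trans hr1, E.trans _ _ _ _ hxd' (E.symm _ _ _ hyc')⟩
  have A4 : Fc (HS SQ) (.ex 4 (.and (.mem 4 0) (.all 5 (.imp (.mem 5 0) (fIn 5 4 1))))) v p := by
    rw [F.ex]
    intro q hq
    refine ⟨q, le_rfl, chk (cd ⊤), H.chk _, ?_⟩
    rw [F.and]
    constructor
    · change fmem (chk (cd ⊤)) (v 0) q
      rw [hB]
      intro q' _
      exact ⟨q', le_rfl, ⊤, E.refl _ _⟩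
    · intro y hy q1 _ hm
      have hw := upd_hs (upd_hs hv 4 (H.chk (cd ⊤))) 5 hy
      rw [hin 5 4 1 (by norm_num) (by norm_num) (by norm_num) _ hw]
      change fmem y (v 0) q1 at hm
      change fmem (opN y (chk (cd ⊤))) (v 1) q1
      rw [hB] at hm
      rw [hR]
      intro q' hq'
      obtain ⟨r, hr, c, hc⟩ := hm q' hq'
      exact ⟨r, hr, c, ⊤, le_top, hc, E.refl _ _⟩
  have B1 : Fc (HS SQ) (.all 4 (.imp (.mem 4 2) (.mem 4 0))) v p := by
    intro x hx q hq hm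
    change fmem x (v 2) q at hm
    change fmem x (v 0) q
    rw [hG] at hm
    rw [hB]
    intro q' hq'
    obtain ⟨r, hr, c, _, hc⟩ := hm q' hq'
    exact ⟨r, hr, c, hc⟩
  have B2 : Fc (HS SQ) (.ex 4 (.mem 4 2)) v p := by
    rw [F.ex]
    intro q hq
    refine ⟨q, le_rfl, chk (cd ⊤), H.chk _, ?_⟩
    change fmem (chk (cd ⊤)) (v 2) q
    rw [hG]
    intro q' _
    exact ⟨q', le_rfl, ⊤, le_top, E.refl _ _⟩
  have B3 : Fc (HS SQ) (.all 4 (.all 5 (.imp (.mem 4 2) (.imp (.mem 5 0) (.imp (fIn 4 5 1)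
      (.mem 5 2)))))) v p := by
    intro x hx y hy q1 _ hm1 q2 h2' _ q3 h3' hm2
    have hw := upd_hs (upd_hs hv 4 hx) 5 hy
    rw [hin 4 5 1 (by norm_num) (by norm_num) (by norm_num) _ hw] at hm2
    change fmem x (v 2) q1 at hm1
    change fmem (opN x y) (v 1) q3 at hm2
    change fmem y (v 2) q3
    rw [hG] at hm1 ⊢
    rw [hR] at hm2
    intro q hq
    obtain ⟨r1, hr1, c, hcc, hxc⟩ := hm1 q (hq.trans (h3'.trans h2'))
    obtain ⟨r2, hr2, c', d', hcd', hxc', hyd'⟩ := hm2 r1 (hr1.trans hq)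
    have e1 : c = c' := hI x c c' r2 (E.mono _ _ _ _ hr2 hxc) hxc'
    subst e1
    exact ⟨r2, hr2.trans hr1, d', (hr2.1.trans hcc).trans hcd', hyd'⟩
  have B4 : Fc (HS SQ) (.all 4 (.all 5 (.imp (.mem 4 2) (.imp (.mem 5 2) (.ex 6 (.and (.mem 6 2)
      (.and (fIn 6 4 1) (fIn 6 5 1)))))))) v p := by
    intro x hx y hy q1 _ hm1 q2 h2' hm2
    change fmem x (v 2) q1 at hm1
    change fmem y (v 2) q2 at hm2
    rw [hG] at hm1 hm2
    rw [F.ex]
    intro q hq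
    obtain ⟨r1, hr1, c, hcc, hxc⟩ := hm1 q (hq.trans h2')
    obtain ⟨r2, hr2, d, hdd, hyd⟩ := hm2 r1 (hr1.trans hq)
    refine ⟨r2, hr2.trans hr1, chk (cd r2.c), H.chk _, ?_⟩
    have hw := upd_hs (upd_hs (upd_hs hv 4 hx) 5 hy) 6 (H.chk (cd r2.c))
    rw [F.and, F.and]
    refine ⟨?_, ?_, ?_⟩
    · change fmem (chk (cd r2.c)) (v 2) r2
      rw [hG]
      intro q' hq'
      exact ⟨q', le_rfl, r2.c, hq'.1, E.refl _ _⟩
    · rw [hin 6 4 1 (by norm_num) (by norm_num) (by norm_num) _ hw]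
      change fmem (opN (chk (cd r2.c)) x) (v 1) r2
      rw [hR]
      intro q' hq'
      exact ⟨q', le_rfl, r2.c, c, hr2.1.trans hcc, E.refl _ _,
        E.mono _ _ _ _ (hq'.trans hr2) hxc⟩
    · rw [hin 6 5 1 (by norm_num) (by norm_num) (by norm_num) _ hw]
      change fmem (opN (chk (cd r2.c)) y) (v 1) r2
      rw [hR]
      intro q' hq'
      exact ⟨q', le_rfl, r2.c, d, hdd, E.refl _ _, E.mono _ _ _ _ hq' hyd⟩
  constructor
  · unfold poFm
    rw [F.and, F.and, F.and]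
    exact ⟨⟨A1, A2⟩, A3, A4⟩
  · unfold filFm
    rw [F.and, F.and, F.and]
    exact ⟨⟨B1, B2⟩, B3, B4⟩

end Pool.Agent.W477.GM.H391Po


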